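import Pool.Agent.Helper621.FT.Flex
import Pool.Agent.Helper732.FT2.A3
import Pool.Agent.Helper321.FT.ABaseX

/-!
# The A side of the exact Felsner-Trotter order, without hypotheses
-/

set_option autoImplicit false

namespace Pool.Agent.Helper621.FT

open Pool.Agent.Helper605.FT Pool.Agent.Helper732.FT2

theorem abase9 : ∃ v, VX 9 6 4 R9 (List.range' 1 9) [8, 3, 5, 6, 2, 1, 7, 4, 9] v := by
  have e : R9 = Pool.Agent.Helper321.FT.R9 := by
    funext k
    rfl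
  rw [e]
  exact Pool.Agent.Helper321.FT.abase'

theorem a_even {n : ℕ} (hn : 13 ≤ n) (hev : n % 2 = 0) : ∃ v, ASide n (n - 1) v :=
  A_even flexP abase9 hn hev

theorem a_odd {n : ℕ} (hn : 13 ≤ n) (hodd : n % 2 = 1) : ∃ v, ASide n (n - 2) v ∧
    ∀ k, 1 ≤ k → k ≤ n - 2 → ∀ a ∈ v k, ¬ Finset.Icc 1 (n - 1) ⊆ a :=
  A_odd flexP abase9 hn hodd

end Pool.Agent.Helper621.FT
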