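import Mathlib
import Pool.Agent.Helper605.FT.V1

/-!
# Fast kernel checker for the base of the C side (exact Felsner-Trotter order)

Sets are bit masks: bit `i` = element `i` (`1 ≤ i ≤ 13`).
`V` is a bit set of masks (the sets visited so far).
-/

set_option autoImplicit false

namespace Pool.Agent.Helper621.FT

open Pool.Agent.Helper605.FT

/-- decode a bit mask -/
def bits (m : ℕ) : Finset ℕ := (Finset.range 14).filter (fun i => m.testBit i)

/-- bit test -/
def tb (V i : ℕ) : Bool := Nat.beq (Nat.land (Nat.shiftRight V i) 1) 1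

/-- mark `a` as visited -/
def mark (V a : ℕ) : ℕ := Nat.lor V (Nat.shiftLeft 1 a)

/-- no `c ∪ {x}`, `1 ≤ x ≤ n`, is visited -/
def sup (V c : ℕ) : ℕ → Bool
  | 0 => true
  | x + 1 => !(tb V (Nat.lor c (Nat.shiftLeft 1 (x + 1)))) && sup V c x

/-- the two masks differ in one bit `1 ≤ x ≤ n` -/
def adjB (d : ℕ) : ℕ → Bool
  | 0 => false
  | x + 1 => Nat.beq d (Nat.shiftLeft 1 (x + 1)) || adjB d x

/-- number of elements of a mask -/
def pc (m : ℕ) : ℕ → ℕ
  | 0 => 0
  | x + 1 => Nat.add (pc m x) (Nat.land (Nat.shiftRight m (x + 1)) 1)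

/-- the chain check; `a` is the previous mask, `V` the sets visited before `a` -/
def chain (n : ℕ) : List ℕ → ℕ → ℕ → Bool
  | [], _, _ => true
  | b :: L, a, V => adjB (Nat.xor a b) n && (!(tb V b) && (sup V b n && chain n L b (mark V a)))

/-- subset of `{1..n}` with `k` or `k+1` elements -/
def good (n k m : ℕ) : Bool :=
  Nat.blt m (Nat.shiftLeft 2 n) && (Nat.beq (Nat.land m 1) 0 &&
    (Nat.beq (pc m n) k || Nat.beq (pc m n) (k + 1)))

def markAll : List ℕ → ℕ → ℕ
  | [], V => V
  | a :: L, V => markAll L (mark V a)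

/-- check of one list -/
def chkL (n k : ℕ) : List ℕ → ℕ → Bool
  | [], _ => true
  | a :: L, V => (!(tb V a)) && (chain n L a V && ((a :: L).all (good n k)))

/-- check of all lists, with cards `k/k+1, k+1/k+2, ...` -/
def chkAll (n : ℕ) : List (List ℕ) → ℕ → ℕ → Bool
  | [], _, _ => true
  | L :: R, k, V => chkL n k L V && chkAll n R (k + 1) (markAll L V)

theorem tb_eq (V i : ℕ) : tb V i = V.testBit i := by
  unfold tb Nat.testBit
  have h : Nat.land (Nat.shiftRight V i) 1 = (V >>> i) % 2 := by
    show (V >>> i) &&& 1 = _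
    exact Nat.and_one_is_mod _
  have h' : 1 &&& (V >>> i) = (V >>> i) % 2 := by
    rw [Nat.land_comm]; exact Nat.and_one_is_mod _
  rw [h, h']
  have := Nat.mod_two_eq_zero_or_one (V >>> i)
  rcases this with h0 | h0 <;> rw [h0] <;> rfl

theorem tb_mark (V a i : ℕ) : tb (mark V a) i = (tb V i || decide (a = i)) := by
  rw [tb_eq, tb_eq]
  show (V ||| (1 <<< a)).testBit i = _
  rw [Nat.testBit_or, Nat.one_shiftLeft, Nat.testBit_two_pow]

theorem mem_bits {m i : ℕ} : i ∈ bits m ↔ i < 14 ∧ m.testBit i = true := by
  simp [bits]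

theorem sup_spec {V c n : ℕ} (h : sup V c n = true) (x : ℕ) (h1 : 1 ≤ x) (hn : x ≤ n) :
    tb V (c ||| 2 ^ x) = false := by
  induction n with
  | zero => omega
  | succ n ih =>
    simp only [sup, Bool.and_eq_true, Bool.not_eq_true'] at h
    rcases Nat.lt_or_ge n x with h2 | h2
    · obtain rfl : x = n + 1 := by omega
      have := h.1
      have e : Nat.lor c (Nat.shiftLeft 1 (n + 1)) = c ||| 2 ^ (n + 1) := by
        show c ||| (1 <<< (n + 1)) = _
        rw [Nat.one_shiftLeft]
      rwa [e] at this
    · exact ih h.2 h2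

theorem adjB_spec {d n : ℕ} (h : adjB d n = true) : ∃ x, 1 ≤ x ∧ x ≤ n ∧ d = 2 ^ x := by
  induction n with
  | zero => simp [adjB] at h
  | succ n ih =>
    simp only [adjB, Bool.or_eq_true] at h
    rcases h with h | h
    · refine ⟨n + 1, by omega, le_refl _, ?_⟩
      have := Nat.eq_of_beq_eq_true h
      rw [this]
      show 1 <<< (n + 1) = _
      rw [Nat.one_shiftLeft]
    · obtain ⟨x, h1, h2, h3⟩ := ih h
      exact ⟨x, h1, by omega, h3⟩

theorem pc_spec (m n : ℕ) :
    ((Finset.Icc 1 n).filter (fun i => m.testBit i)).card = pc m n := by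
  induction n with
  | zero => simp [pc]
  | succ n ih =>
    have e : Nat.land (Nat.shiftRight m (n + 1)) 1 = (m.testBit (n + 1)).toNat := by
      have h := tb_eq m (n + 1)
      have h2 : Nat.land (Nat.shiftRight m (n + 1)) 1 = (m >>> (n + 1)) % 2 := by
        show (m >>> (n + 1)) &&& 1 = _
        exact Nat.and_one_is_mod _
      rw [← h]; unfold tb; rw [h2]
      rcases Nat.mod_two_eq_zero_or_one (m >>> (n + 1)) with h0 | h0 <;> rw [h0] <;> rfl
    have e2 : Finset.Icc 1 (n + 1) = insert (n + 1) (Finset.Icc 1 n) := by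
      ext i; simp only [Finset.mem_Icc, Finset.mem_insert]; omega
    rw [e2, Finset.filter_insert]
    have hni : (n + 1) ∉ (Finset.Icc 1 n).filter (fun i => m.testBit i) := by
      simp
    show _ = Nat.add (pc m n) _
    rw [e]
    by_cases hb : m.testBit (n + 1) = true
    · rw [if_pos hb, Finset.card_insert_of_notMem hni, ih, hb]; rfl
    · rw [if_neg hb, ih]
      have : m.testBit (n + 1) = false := by simpa using hb
      rw [this]; rfl

/-- meaning of `good` -/
structure Good (n k m : ℕ) : Prop where
  lt : m < 2 ^ (n + 1)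
  even : m.testBit 0 = false
  sub : bits m ⊆ Finset.Icc 1 n
  card : (bits m).card = k ∨ (bits m).card = k + 1

theorem testBit_high {m n i : ℕ} (h : m < 2 ^ (n + 1)) (hi : n < i) : m.testBit i = false :=
  Nat.testBit_lt_two_pow (lt_of_lt_of_le h (Nat.pow_le_pow_right (by norm_num) hi))

theorem good_spec {n k m : ℕ} (hn : n ≤ 13) (h : good n k m = true) : Good n k m := by
  simp only [good, Bool.and_eq_true, Bool.or_eq_true] at h
  obtain ⟨h1, h2, h3⟩ := h
  have h1' : m < 2 ^ (n + 1) := by
    have : m < Nat.shiftLeft 2 n := by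
      have := Nat.le_of_ble_eq_true h1
      exact this
    have e : Nat.shiftLeft 2 n = 2 ^ (n + 1) := by
      show 2 <<< n = _
      rw [Nat.shiftLeft_eq, pow_succ]; ring
    omega
  have h2' : m.testBit 0 = false := by
    have h4 := Nat.eq_of_beq_eq_true h2
    have : m &&& 1 = 0 := h4
    rw [Nat.and_one_is_mod] at this
    rw [Nat.testBit_zero]; simp; omega
  have hs : bits m = (Finset.Icc 1 n).filter (fun i => m.testBit i) := by
    ext i
    rw [mem_bits, Finset.mem_filter, Finset.mem_Icc]
    constructor
    · rintro ⟨h5, h6⟩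
      refine ⟨⟨?_, ?_⟩, h6⟩
      · rcases Nat.eq_zero_or_pos i with rfl | h
        · rw [h2'] at h6; exact absurd h6 (by decide)
        · exact h
      · by_contra hc
        rw [testBit_high h1' (by omega)] at h6; exact absurd h6 (by decide)
    · rintro ⟨⟨_, h5⟩, h6⟩
      exact ⟨by omega, h6⟩
  refine ⟨h1', h2', ?_, ?_⟩
  · rw [hs]; exact Finset.filter_subset _ _
  · rw [hs, pc_spec]
    rcases h3 with h3 | h3
    · exact Or.inl (Nat.eq_of_beq_eq_true h3)
    · exact Or.inr (Nat.eq_of_beq_eq_true h3)

theorem adj_sound {a b n : ℕ} (hn : n ≤ 13) (h : adjB (Nat.xor a b) n = true) :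
    Adj (bits a) (bits b) := by
  obtain ⟨x, h1, hx7, hx⟩ := adjB_spec h
  have hx' : a ^^^ b = 2 ^ x := hx
  have h2 : ∀ i, (a.testBit i ^^ b.testBit i) = decide (x = i) := by
    intro i
    rw [← Nat.testBit_xor, hx', Nat.testBit_two_pow]
  have hxx := h2 x
  have h3 : ∀ i, i ≠ x → a.testBit i = b.testBit i := by
    intro i hi
    have := h2 i
    rw [decide_eq_false (fun h => hi h.symm)] at this
    cases ha : a.testBit i <;> cases hb : b.testBit i <;> simp_all
  cases ha : a.testBit x with
  | false =>
    have hb : b.testBit x = true := by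
      rw [ha] at hxx; simpa using hxx
    refine Or.inl ⟨x, fun hm => ?_, ?_⟩
    · rw [(mem_bits.1 hm).2] at ha
      exact absurd ha (by decide)
    · ext i
      rw [Finset.mem_insert, mem_bits, mem_bits]
      by_cases hi : i = x
      · subst hi
        simp [hb]; omega
      · rw [h3 i hi]
        simp [hi]
  | true =>
    have hb : b.testBit x = false := by
      rw [ha] at hxx; simpa using hxx
    refine Or.inr ⟨x, fun hm => ?_, ?_⟩
    · rw [(mem_bits.1 hm).2] at hb
      exact absurd hb (by decide)
    · ext i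
      rw [Finset.mem_insert, mem_bits, mem_bits]
      by_cases hi : i = x
      · subst hi
        simp [ha]; omega
      · rw [h3 i hi]
        simp [hi]

theorem bits_inj {n k l a b : ℕ} (hn : n ≤ 13) (ha : Good n k a) (hb : Good n l b)
    (h : bits a = bits b) : a = b := by
  apply Nat.eq_of_testBit_eq
  intro i
  by_cases hi : i < 14
  · have h1 : i ∈ bits a ↔ i ∈ bits b := by rw [h]
    rw [mem_bits, mem_bits] at h1
    cases h2 : a.testBit i <;> cases h3 : b.testBit i <;> simp_all
  · rw [testBit_high ha.lt (by omega), testBit_high hb.lt (by omega)]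

/-- a set of the same list that is contained in `a` is `a` or `a` minus one element -/
theorem sub_cases {n k l a c : ℕ} (hn : n ≤ 13) (ha : Good n k a) (hc : Good n l c)
    (h : bits c ⊆ bits a) (hk : (bits a).card ≤ (bits c).card + 1) :
    c = a ∨ ∃ x, 1 ≤ x ∧ x ≤ n ∧ c ||| 2 ^ x = a := by
  by_cases he : bits c = bits a
  · exact Or.inl (bits_inj hn hc ha he)
  · right
    have hss : bits c ⊂ bits a := lt_of_le_of_ne h he
    obtain ⟨x, hxa, hxc⟩ := Finset.exists_of_ssubset hss
    have hx := Finset.mem_Icc.1 (ha.sub hxa)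
    refine ⟨x, hx.1, hx.2, ?_⟩
    have hins : insert x (bits c) = bits a := by
      apply Finset.eq_of_subset_of_card_le
      · intro y hy
        rcases Finset.mem_insert.1 hy with rfl | hy
        · exact hxa
        · exact h hy
      · rw [Finset.card_insert_of_notMem hxc]; exact hk
    apply Nat.eq_of_testBit_eq
    intro i
    rw [Nat.testBit_or, Nat.testBit_two_pow]
    by_cases hi : i < 14
    · have h1 : i ∈ insert x (bits c) ↔ i ∈ bits a := by rw [hins]
      rw [Finset.mem_insert, mem_bits, mem_bits] at h1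
      by_cases hix : x = i
      · subst hix
        simp only [decide_true, Bool.or_true]
        exact (mem_bits.1 hxa).2.symm
      · have hix' : ¬ i = x := fun h => hix h.symm
        simp only [hix', false_or] at h1
        rw [decide_eq_false hix, Bool.or_false]
        cases h2 : a.testBit i <;> cases h3 : c.testBit i <;> simp_all
    · rw [testBit_high ha.lt (by omega), testBit_high hc.lt (by omega)]
      rw [decide_eq_false (by omega : ¬ x = i)]; rfl

theorem chain_notin {n : ℕ} : ∀ (L : List ℕ) (a V : ℕ), chain n L a V = true →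
    ∀ b ∈ L, ∀ m, tb V m = true → b ≠ m ∧ ∀ x, 1 ≤ x → x ≤ n → b ||| 2 ^ x ≠ m := by
  intro L
  induction L with
  | nil => intro a V h b hb; simp at hb
  | cons c L ih =>
    intro a V h b hb m hm
    simp only [chain, Bool.and_eq_true, Bool.not_eq_true'] at h
    obtain ⟨_, h2, h3, h4⟩ := h
    rcases List.mem_cons.1 hb with rfl | hb
    · refine ⟨fun he => ?_, fun x h5 h6 he => ?_⟩
      · rw [he, hm] at h2; exact absurd h2 (by decide)
      · have := sup_spec h3 x h5 h6
        rw [he, hm] at this; exact absurd this (by decide)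
    · refine ih c (mark V a) h4 b hb m ?_
      rw [tb_mark, hm]; rfl

theorem chain_ok {n k : ℕ} (hn : n ≤ 13) : ∀ (L : List ℕ) (a V : ℕ), chain n L a V = true →
    (∀ m ∈ a :: L, Good n k m) → Ok ((a :: L).map bits) := by
  intro L
  induction L with
  | nil => intro a V h hg; trivial
  | cons b L ih =>
    intro a V h hg
    simp only [chain, Bool.and_eq_true, Bool.not_eq_true'] at h
    obtain ⟨h1, h2, h3, h4⟩ := h
    refine ⟨adj_sound hn h1, ?_, ih b (mark V a) h4 (fun m hm => hg m (List.mem_cons_of_mem _ hm))⟩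
    intro c hc hca
    obtain ⟨c', hc', rfl⟩ := List.mem_map.1 hc
    have hga := hg a (by simp)
    have hgc := hg c' (by simp [hc'])
    have h5 := chain_notin L b (mark V a) h4 c' hc' a (by rw [tb_mark]; simp)
    rcases sub_cases hn hga hgc hca (by
      rcases hga.card with h | h <;> rcases hgc.card with h' | h' <;> omega) with h6 | ⟨x, h6, h7, h8⟩
    · exact h5.1 h6
    · exact h5.2 x h6 h7 h8

theorem markAll_of {L : List ℕ} : ∀ {V m : ℕ}, tb V m = true → tb (markAll L V) m = true := by
  induction L with
  | nil => intro V m h; exact h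
  | cons a L ih =>
    intro V m h
    apply ih
    rw [tb_mark, h]; rfl

theorem markAll_mem {L : List ℕ} : ∀ {V m : ℕ}, m ∈ L → tb (markAll L V) m = true := by
  induction L with
  | nil => intro V m h; simp at h
  | cons a L ih =>
    intro V m h
    rcases List.mem_cons.1 h with rfl | h
    · exact markAll_of (L := L) (V := mark V m) (by rw [tb_mark]; simp)
    · exact ih h

theorem chkL_ok {n k V : ℕ} (hn : n ≤ 13) {L : List ℕ} (h : chkL n k L V = true) :
    Ok (L.map bits) ∧ (∀ m ∈ L, Good n k m) ∧ ∀ m ∈ L, tb V m = false := by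
  cases L with
  | nil => exact ⟨trivial, by simp, by simp⟩
  | cons a L =>
    simp only [chkL, Bool.and_eq_true, Bool.not_eq_true', List.all_eq_true] at h
    obtain ⟨h1, h2, h3⟩ := h
    have hg : ∀ m ∈ a :: L, Good n k m := fun m hm => good_spec hn (h3 m hm)
    refine ⟨chain_ok hn L a V h2 hg, hg, ?_⟩
    intro m hm
    rcases List.mem_cons.1 hm with rfl | hm
    · exact h1
    · cases hv : tb V m with
      | false => rfl
      | true => exact absurd rfl ((chain_notin L a V h2 m hm m hv).1)

/-- the meaning of `chkAll` -/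
theorem chkAll_notin {n : ℕ} (hn : n ≤ 13) : ∀ (R : List (List ℕ)) (k V : ℕ),
    chkAll n R k V = true → ∀ j, ∀ m ∈ R.getD j [], tb V m = false := by
  intro R
  induction R with
  | nil => intro k V h j m hm; simp at hm
  | cons L R ih =>
    intro k V h j m hm
    simp only [chkAll, Bool.and_eq_true] at h
    cases j with
    | zero => exact (chkL_ok hn h.1).2.2 m (by simpa using hm)
    | succ j =>
      have h1 := ih (k + 1) _ h.2 j m (by simpa using hm)
      cases hv : tb V m with
      | false => rfl
      | true => rw [markAll_of hv] at h1; exact absurd h1 (by decide)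

theorem chkAll_spec {n : ℕ} (hn : n ≤ 13) : ∀ (R : List (List ℕ)) (k V : ℕ),
    chkAll n R k V = true →
    (∀ j, Ok ((R.getD j []).map bits) ∧ ∀ m ∈ R.getD j [], Good n (k + j) m) ∧
    (∀ i j, i < j → ∀ a ∈ R.getD i [], ∀ b ∈ R.getD j [], a ≠ b) := by
  intro R
  induction R with
  | nil => intro k V h; simp; trivial
  | cons L R ih =>
    intro k V h
    simp only [chkAll, Bool.and_eq_true] at h
    obtain ⟨h1, h2⟩ := h
    obtain ⟨h3, h4⟩ := ih (k + 1) _ h2
    have hL := chkL_ok hn h1
    refine ⟨fun j => ?_, fun i j hij a ha b hb => ?_⟩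
    · cases j with
      | zero => exact ⟨by simpa using hL.1, by simpa using hL.2.1⟩
      | succ j =>
        refine ⟨by simpa using (h3 j).1, fun m hm => ?_⟩
        have := (h3 j).2 m (by simpa using hm)
        rwa [show k + 1 + j = k + (j + 1) by omega] at this
    · cases j with
      | zero => omega
      | succ j =>
        have hb' : b ∈ R.getD j [] := by simpa using hb
        cases i with
        | zero =>
          have ha' : a ∈ L := by simpa using ha
          have h5 := chkAll_notin hn R (k + 1) _ h2 j b hb'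
          intro he
          rw [← he, markAll_mem ha'] at h5
          exact absurd h5 (by decide)
        | succ i =>
          exact h4 i j (by omega) a (by simpa using ha) b hb'

theorem chkAll_cross {n : ℕ} (hn : n ≤ 13) {R : List (List ℕ)} {k V : ℕ}
    (h : chkAll n R k V = true) (i j : ℕ) (hij : i < j) (a : ℕ) (ha : a ∈ R.getD i []) (b : ℕ)
    (hb : b ∈ R.getD j []) : ¬ bits b ⊆ bits a := by
  intro hs
  obtain ⟨h1, h2⟩ := chkAll_spec hn R k V h
  have hga := (h1 i).2 a ha
  have hgb := (h1 j).2 b hb
  have he : bits b = bits a := by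
    apply Finset.eq_of_subset_of_card_le hs
    rcases hga.card with h | h <;> rcases hgb.card with h' | h' <;> omega
  exact h2 i j hij a ha b hb (bits_inj hn hga hgb he.symm)

end Pool.Agent.Helper621.FT
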