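import Mathlib
import Pool.Agent.Helper621.FT.Chk
import Pool.Agent.Helper722.FX.Defs

/-!
# Base of the C side (exact Felsner-Trotter order): from data to `BF 12`
-/

set_option autoImplicit false

namespace Pool.Agent.Helper621.FT

open Pool.Agent.Helper605.FT Pool.Agent.Helper722.FX



/-- mask of a list of elements -/
def mk : List ℕ → ℕ
  | [] => 0
  | x :: l => Nat.lor (mk l) (Nat.shiftLeft 1 x)

theorem bits_mk : ∀ l : List ℕ, (∀ x ∈ l, x < 14) → bits (mk l) = l.toFinset := by
  intro l
  induction l with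
  | nil =>
    intro _
    ext i
    rw [mem_bits]
    simp [mk]
  | cons x l ih =>
    intro h
    ext i
    have h1 : i ∈ bits (mk l) ↔ i ∈ l.toFinset := by
      rw [ih (fun y hy => h y (List.mem_cons_of_mem _ hy))]
    rw [mem_bits] at h1
    rw [mem_bits, List.toFinset_cons, Finset.mem_insert, ← h1]
    have hx := h x (by simp)
    show i < 14 ∧ (mk l ||| (1 <<< x)).testBit i = true ↔ _
    rw [Nat.testBit_or, Nat.one_shiftLeft, Nat.testBit_two_pow, Bool.or_eq_true, decide_eq_true_eq]
    constructor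
    · rintro ⟨h2, h3 | h3⟩
      · exact Or.inr ⟨h2, h3⟩
      · exact Or.inl h3.symm
    · rintro (h2 | ⟨h2, h3⟩)
      · exact ⟨by omega, Or.inr h2.symm⟩
      · exact ⟨h2, Or.inl h3⟩

/-- mask of the wanted first set of list `k` (`n = 12`) -/
def hm (k : ℕ) : ℕ := if k = 3 then mk [1, 3, 11] else mk ((sP 11).take k)
/-- mask of the wanted last set -/
def em (k : ℕ) : ℕ := mk (1 :: 3 :: List.range' (15 - k) (k - 2))
/-- mask of `T 12 k` -/
def tm (k : ℕ) : ℕ := mk (1 :: 2 :: 3 :: List.range' (16 - k) (k - 3))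

/-- the forbidden pairs -/
def hul : List (List ℕ) :=
  [[1, 3], [10, 12], [12, 9], [9, 8], [8, 7], [7, 5], [5, 6], [6, 4], [4, 11], [11, 1], [1, 2], [2, 3]]

/-- forbidden masks -/
def hum : List ℕ := hul.map mk

/-- check of one list of the base -/
def chkB (k : ℕ) (L : List ℕ) : Bool :=
  Nat.beq (L.length + 1) (2 * (11).choose (k - 1)) &&
  ((match L.head? with
    | some a => Nat.beq a (hm k)
    | none => false) &&
  ((match L.getLast? with
    | some a => Nat.beq a (em k)
    | none => false) &&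
  L.all (fun b => !(Nat.beq (Nat.land b (tm k)) b))))

/-- the whole check -/
def chk (D : List (List ℕ)) : Bool :=
  chkAll 12 D 2 0 &&
  (chkB 3 (D.getD 0 []) && (chkB 4 (D.getD 1 []) && (chkB 5 (D.getD 2 []) &&
  (chkB 6 (D.getD 3 []) && (chkB 7 (D.getD 4 []) && (chkB 8 (D.getD 5 []) &&
  (chkB 9 (D.getD 6 []) && (chkB 10 (D.getD 7 []) && (chkB 11 (D.getD 8 []) &&
  (D.getD 0 []).all (fun b => hum.all (fun m => !(Nat.beq b m))))))))))))

theorem infix_pair {u v : ℕ} : ∀ l : List ℕ, [u, v] <:+: l → (u, v) ∈ l.zip l.tail := by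
  intro l h
  obtain ⟨s, t, h⟩ := h
  subst h
  induction s with
  | nil => simp
  | cons a s ih =>
    cases s with
    | nil => simp
    | cons b s =>
      simp only [List.cons_append, List.tail_cons, List.zip_cons_cons, List.mem_cons] at ih ⊢
      exact Or.inr ih

theorem HU_cases {p : Finset ℕ} (h : HU 12 p) : ∃ l ∈ hul, p = l.toFinset := by
  rcases h with h | ⟨u, v, h1, h2⟩
  · exact ⟨[1, 3], by simp [hul], by rw [h]; rfl⟩
  · have h3 := infix_pair _ h1
    have e : ((12 - 2) :: 12 :: (sX (12 - 1)).reverse : List ℕ) = [10, 12, 9, 8, 7, 5, 6, 4, 11, 1, 2, 3] := by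
      decide
    rw [e] at h3
    refine ⟨[u, v], ?_, by rw [h2]; simp⟩
    simp only [List.tail_cons, List.zip_cons_cons, List.zip_nil_right, List.mem_cons, Prod.mk.injEq,
      List.not_mem_nil, or_false] at h3
    rcases h3 with h | h | h | h | h | h | h | h | h | h | h <;>
      (obtain ⟨rfl, rfl⟩ := h; simp [hul])

theorem hm_spec (k : ℕ) (h4 : 4 ≤ k) (h11 : k ≤ 11) : bits (hm k) = ((sP (12 - 1)).take k).toFinset := by
  unfold hm
  rw [if_neg (by omega)]
  apply bits_mk
  intro x hx
  have h := List.mem_of_mem_take hx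
  have : ∀ x ∈ sP 11, x < 14 := by decide
  exact this x h

theorem em_spec (k : ℕ) (h3 : 3 ≤ k) (h11 : k ≤ 11) : bits (em k) = E 12 k := by
  unfold em E
  rw [bits_mk]
  · interval_cases k <;> decide
  · interval_cases k <;> decide

theorem tm_spec (k : ℕ) (h3 : 3 ≤ k) (h11 : k ≤ 11) : bits (tm k) = T 12 k := by
  unfold tm T
  rw [bits_mk]
  · interval_cases k <;> decide
  · interval_cases k <;> decide

theorem nsub_sound {n k c a : ℕ} (hn : n ≤ 13) (hc : Good n k c)
    (h : Nat.beq (Nat.land c a) c = false) : ¬ bits c ⊆ bits a := by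
  intro hsub
  have h1 : Nat.land c a = c := by
    show c &&& a = c
    apply Nat.eq_of_testBit_eq
    intro i
    rw [Nat.testBit_and]
    cases hi : c.testBit i with
    | false => rfl
    | true =>
      have hi7 : i < 14 := by
        by_contra hcon
        rw [testBit_high hc.lt (by omega)] at hi
        exact absurd hi (by decide)
      have h3 := hsub (mem_bits.2 ⟨hi7, hi⟩)
      rw [(mem_bits.1 h3).2]
      rfl
  rw [h1] at h
  simp at h

theorem chkB_spec {k : ℕ} {L : List ℕ} (h : chkB k L = true) :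
    L.length + 1 = 2 * (11).choose (k - 1) ∧ L.head? = some (hm k) ∧ L.getLast? = some (em k) ∧
    ∀ b ∈ L, Nat.beq (Nat.land b (tm k)) b = false := by
  simp only [chkB, Bool.and_eq_true] at h
  obtain ⟨h1, h2, h3, h4⟩ := h
  refine ⟨Nat.eq_of_beq_eq_true h1, ?_, ?_, ?_⟩
  · cases hL : L.head? with
    | none => rw [hL] at h2; simp at h2
    | some a => rw [hL] at h2; rw [Nat.eq_of_beq_eq_true h2]
  · cases hL : L.getLast? with
    | none => rw [hL] at h3; simp at h3
    | some a => rw [hL] at h3; rw [Nat.eq_of_beq_eq_true h3]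
  · intro b hb
    have := List.all_eq_true.1 h4 b hb
    simpa using this

theorem base_of_data (D : List (List ℕ)) (h : chk D = true) :
    BF 12 (fun k => (D.getD (k - 3) []).map bits) := by
  simp only [chk, Bool.and_eq_true] at h
  obtain ⟨h0, h3, h4, h5, h6, h7, h8, h9, h10, h11, hH⟩ := h
  have hB : ∀ k, 3 ≤ k → k ≤ 11 → chkB k (D.getD (k - 3) []) = true := by
    intro k h1 h2
    interval_cases k <;> assumption
  obtain ⟨hs1, hs2⟩ := chkAll_spec (by norm_num) D 2 0 h0
  refine ⟨?_, ?_, ?_, ?_, ?_, ?_, ?_, ?_, ?_, ?_⟩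
  · intro k h1 h2
    have := (chkB_spec (hB k h1 (by omega))).1
    rw [List.length_map]; exact this
  · intro k h1 h2
    exact (hs1 (k - 3)).1
  · intro k h1 h2 a ha
    obtain ⟨a', ha', rfl⟩ := List.mem_map.1 ha
    have := ((hs1 (k - 3)).2 a' ha').card
    rcases this with h | h
    · left; rw [h]; omega
    · right; rw [h]; omega
  · intro k h1 h2 a ha
    obtain ⟨a', ha', rfl⟩ := List.mem_map.1 ha
    exact ((hs1 (k - 3)).2 a' ha').sub
  · have := (chkB_spec (hB 3 (by norm_num) (by norm_num))).2.1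
    show ((D.getD (3 - 3) []).map bits).head? = _
    rw [List.head?_map, this]
    show some (bits (hm 3)) = _
    unfold hm
    rw [if_pos rfl, bits_mk _ (by decide)]
    rfl
  · intro k h1 h2
    have := (chkB_spec (hB k (by omega) (by omega))).2.1
    show ((D.getD (k - 3) []).map bits).head? = _
    rw [List.head?_map, this]
    show some (bits (hm k)) = _
    rw [hm_spec k h1 (by omega)]
  · intro k h1 h2
    have := (chkB_spec (hB k (by omega) (by omega))).2.2.1
    show ((D.getD (k - 3) []).map bits).getLast? = _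
    rw [List.getLast?_map, this]
    show some (bits (em k)) = _
    rw [em_spec k h1 (by omega)]
  · intro k l h1 h2 h3 a ha b hb
    obtain ⟨a', ha', rfl⟩ := List.mem_map.1 ha
    obtain ⟨b', hb', rfl⟩ := List.mem_map.1 hb
    exact chkAll_cross (by norm_num) h0 (k - 3) (l - 3) (by omega) a' ha' b' hb'
  · intro k h1 h2 b hb
    obtain ⟨b', hb', rfl⟩ := List.mem_map.1 hb
    have := (chkB_spec (hB k (by omega) (by omega))).2.2.2 b' hb'
    rw [← tm_spec k h1 (by omega)]
    exact nsub_sound (by norm_num) ((hs1 (k - 3)).2 b' hb') this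
  · intro b hb hc hh
    obtain ⟨b', hb', rfl⟩ := List.mem_map.1 hb
    obtain ⟨l, hl, he⟩ := HU_cases hh
    have hlt : ∀ l ∈ hul, ∀ x ∈ l, x < 14 := by decide
    have e2 := bits_mk l (hlt l hl)
    rw [← e2] at he
    have hgood : ∀ l ∈ hul, good 12 1 (mk l) = true := by decide
    have hg := good_spec (by norm_num) (hgood l hl)
    have heq := bits_inj (by norm_num) ((hs1 (3 - 3)).2 b' hb') hg he
    have h12 := List.all_eq_true.1 hH b' hb'
    have h13 := List.all_eq_true.1 h12 (mk l) (List.mem_map_of_mem hl)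
    rw [heq] at h13
    simp at h13

end Pool.Agent.Helper621.FT
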