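import Mathlib
import Pool.Agent.Helper605.FT.Glue
import Pool.Agent.Helper732.FT2.Base

set_option autoImplicit false

namespace Pool.Agent.Helper621.FT

open Pool.Agent.Helper605.FT Pool.Agent.Helper732.FT2

/-- the phase-2 list starts `{s1,s2,s3},{s1,s3},{s1,s3,s4}` -/
def St (s : List ℕ) (L : List (Finset ℕ)) : Prop :=
  ∃ (a b c d : ℕ) (r : List ℕ) (t : List (Finset ℕ)), s = a :: b :: c :: d :: r ∧
    L = {a, b, c} :: {a, c} :: {a, c, d} :: t

/-- full order whose phase-1 list is the walk along `s` -/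
def PVP (s e : List ℕ) : Prop := ∃ π, PVf s e π ∧ π 1 = walk s ∧ St s (π 2)

theorem walk_append (a x : ℕ) : ∀ s : List ℕ, walk (s ++ [a, x]) = walk (s ++ [a]) ++ [{a, x}, {x}]
  | [] => rfl
  | [b] => rfl
  | b :: c :: s => by
    have ih := walk_append a x (c :: s)
    simp only [List.cons_append] at ih ⊢
    simp only [walk, List.cons_append]
    rw [ih]

theorem walk_map (f : ℕ → ℕ) : ∀ s : List ℕ, walk (s.map f) = (walk s).map (Finset.image f)
  | [] => rfl
  | [b] => rfl
  | b :: c :: s => by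
    have ih := walk_map f (c :: s)
    simp only [List.map_cons] at ih ⊢
    simp only [walk, List.map_cons]
    rw [ih]
    simp [Finset.image_insert]

theorem walk_last (a : ℕ) : ∀ s : List ℕ, s ≠ [] → (walk (s ++ [a])).getLast? = some {a}
  | [], h => absurd rfl h
  | [b], _ => rfl
  | b :: c :: s, _ => by
    have ih := walk_last a (c :: s) (by simp)
    simp only [List.cons_append] at ih ⊢
    simp only [walk]
    rw [List.getLast?_cons_cons, List.getLast?_cons, ih]
    simp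

theorem PVP.pv {s e : List ℕ} (h : PVP s e) : PV s e := by
  obtain ⟨π, h, _, _⟩ := h
  exact ⟨π, h⟩

theorem PVP.relabel {s e : List ℕ} (h : PVP s e) {f : ℕ → ℕ} (hf : Function.Injective f) :
    PVP (s.map f) (e.map f) := by
  obtain ⟨π, h, h1, a, b, c, d, r, t, h2, h3⟩ := h
  refine ⟨_, h.relabel hf, ?_, f a, f b, f c, f d, r.map f, t.map (Finset.image f), ?_, ?_⟩
  · simp only [h1, walk_map]
  · rw [h2]; rfl
  · simp only [h3, List.map_cons, Finset.image_insert, Finset.image_singleton]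

theorem PVP.merge {s m e : List ℕ} {x : ℕ} (hA : PVP s m) (hB : PV m e) (hx : x ∉ s)
    (hs : 2 ≤ s.length) : PVP (s ++ [x]) (x :: e) := by
  obtain ⟨A, hA, hA1, a', b', c', d', r', t', h2, h3⟩ := hA
  obtain ⟨B, hB⟩ := hB
  refine ⟨_, hA.merge hB hx (by rintro rfl; simp at hs), ?_,
    a', b', c', d', r' ++ [x], t' ++ (B 1).map (insert x), by rw [h2]; rfl, by
      simp only [mg, h3, List.cons_append]⟩
  clear h2 h3
  obtain ⟨s0, a, rfl⟩ : ∃ s0 a, s = s0 ++ [a] := by
    rcases List.eq_nil_or_concat s with h | ⟨l, a, h⟩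
    · rw [h] at hs; simp at hs
    · exact ⟨l, a, by simpa using h⟩
  have hs0 : s0 ≠ [] := by rintro rfl; simp at hs
  have hm : m.length = (s0 ++ [a]).length := hA.perm.length_eq
  have e1 := hA.last 1 (by omega)
  rw [hA1, walk_last a s0 hs0, Option.some.injEq] at e1
  have e2 := hB.head 0 (by omega)
  rw [zero_add, ← e1] at e2
  have e3 := hB.last 0 (by omega)
  have e4 := hB.len 0
  rw [Nat.choose_zero_right, mul_one, List.length_eq_two] at e4
  obtain ⟨u, v, huv⟩ := e4
  rw [huv] at e2 e3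
  simp only [List.head?_cons, Option.some.injEq, List.getLast?_cons_cons, List.getLast?_singleton,
    List.take_zero, List.toFinset_nil] at e2 e3
  subst e2 e3
  have e5 : s0 ++ [a] ++ [x] = s0 ++ [a, x] := by simp
  rw [e5, walk_append, ← hA1]
  simp only [mg, huv, List.map_cons, List.map_nil]
  congr 2
  · rw [Finset.pair_comm]

def idP : List (List ℕ) := [[6, 0, 1, 2, 5, 3, 4],
  [6, 0, 1, 3, 4, 5, 2]]

def ph1 : List ℕ := [3,2,6,4,12,8,24,16,48,32,96,64]

theorem bits7 : S1.bits 7 = {0, 1, 2} := by decide +kernel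
theorem bits5 : S1.bits 5 = {0, 2} := by decide +kernel
theorem bits13 : S1.bits 13 = {0, 2, 3} := by decide +kernel

theorem ph1_walk : ph1.map S1.bits = walk (List.range 7) := by decide +kernel

theorem idP_chk : idP.all (fun p => S1.sols.any (fun q => q.1 == p && (q.2.getD 1 [] == ph1 &&
    (q.2.getD 2 []).take 3 == [7, 5, 13]))) = true := by
  decide +kernel

theorem idP_ok : ∀ p ∈ idP, PVP (List.range 7) p := by
  intro p hp
  have h := List.all_eq_true.1 idP_chk p hp
  rw [List.any_eq_true] at h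
  obtain ⟨q, hq, h⟩ := h
  rw [Bool.and_eq_true, Bool.and_eq_true, beq_iff_eq, beq_iff_eq, beq_iff_eq] at h
  obtain ⟨rfl, h2, h3⟩ := h
  refine ⟨_, S1.sols_ok q hq, ?_, 0, 1, 2, 3, [4, 5, 6],
    ((q.2.getD 2 []).drop 3).map S1.bits, rfl, ?_⟩
  · simp only [h2]
    exact ph1_walk
  · show (q.2.getD 2 []).map S1.bits = _
    conv_lhs => rw [← List.take_append_drop 3 (q.2.getD 2 []), h3]
    simp only [List.map_append, List.map_cons, List.map_nil, bits7, bits5, bits13,
      List.cons_append, List.nil_append]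

theorem tab8 (iq iq2 : ℕ) (hiq : iq < 7) : ∃ p ∈ idP, ∃ q ∈ perms, ∃ (mid : List ℕ) (pm : ℕ),
    q.map (fun i => p.getD i 0) = mid ++ [pm, iq] ∧ pm ≠ iq2 := by
  have h7 : iq = 0 ∨ iq = 1 ∨ iq = 2 ∨ iq = 3 ∨ iq = 4 ∨ iq = 5 ∨ iq = 6 := by omega
  rcases h7 with rfl | rfl | rfl | rfl | rfl | rfl | rfl
  · by_cases h : iq2 = 6
    · exact ⟨[6, 0, 1, 2, 5, 3, 4], by decide, [3, 6, 0, 2, 5, 4, 1], by decide, [2, 4, 6, 1, 3], 5, by decide, by omega⟩
    · exact ⟨[6, 0, 1, 2, 5, 3, 4], by decide, [3, 5, 2, 6, 4, 0, 1], by decide, [2, 3, 1, 4, 5], 6, by decide, by omega⟩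
  · by_cases h : iq2 = 5
    · exact ⟨[6, 0, 1, 2, 5, 3, 4], by decide, [3, 6, 0, 1, 4, 5, 2], by decide, [2, 4, 6, 0, 5], 3, by decide, by omega⟩
    · exact ⟨[6, 0, 1, 2, 5, 3, 4], by decide, [3, 5, 1, 6, 0, 4, 2], by decide, [2, 3, 0, 4, 6], 5, by decide, by omega⟩
  · by_cases h : iq2 = 6
    · exact ⟨[6, 0, 1, 2, 5, 3, 4], by decide, [5, 1, 4, 6, 0, 2, 3], by decide, [3, 0, 5, 4, 6], 1, by decide, by omega⟩
    · exact ⟨[6, 0, 1, 2, 5, 3, 4], by decide, [4, 2, 6, 1, 5, 0, 3], by decide, [5, 1, 4, 0, 3], 6, by decide, by omega⟩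
  · by_cases h : iq2 = 1
    · exact ⟨[6, 0, 1, 2, 5, 3, 4], by decide, [4, 3, 6, 0, 2, 1, 5], by decide, [5, 2, 4, 6, 1], 0, by decide, by omega⟩
    · exact ⟨[6, 0, 1, 2, 5, 3, 4], by decide, [3, 6, 4, 0, 1, 2, 5], by decide, [2, 4, 5, 6, 0], 1, by decide, by omega⟩
  · by_cases h : iq2 = 0
    · exact ⟨[6, 0, 1, 3, 4, 5, 2], by decide, [5, 1, 2, 6, 0, 3, 4], by decide, [5, 0, 1, 2, 6], 3, by decide, by omega⟩
    · exact ⟨[6, 0, 1, 3, 4, 5, 2], by decide, [3, 6, 0, 2, 5, 1, 4], by decide, [3, 2, 6, 1, 5], 0, by decide, by omega⟩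
  · by_cases h : iq2 = 0
    · exact ⟨[6, 0, 1, 2, 5, 3, 4], by decide, [5, 1, 2, 6, 0, 3, 4], by decide, [3, 0, 1, 4, 6], 2, by decide, by omega⟩
    · exact ⟨[6, 0, 1, 2, 5, 3, 4], by decide, [3, 6, 0, 2, 5, 1, 4], by decide, [2, 4, 6, 1, 3], 0, by decide, by omega⟩
  · by_cases h : iq2 = 1
    · exact ⟨[6, 0, 1, 2, 5, 3, 4], by decide, [3, 4, 6, 2, 5, 1, 0], by decide, [2, 5, 4, 1, 3], 0, by decide, by omega⟩
    · exact ⟨[6, 0, 1, 2, 5, 3, 4], by decide, [3, 4, 5, 6, 1, 2, 0], by decide, [2, 5, 3, 4, 0], 1, by decide, by omega⟩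

/-- intermediate statement: enough full orders with phase-1 path `s ++ [x]` -/
def EP (n : ℕ) : Prop := ∀ (s : List ℕ) (x q q2 : ℕ), (s ++ [x]).length = n → (s ++ [x]).Nodup →
  q ∈ s → ∃ (mid : List ℕ) (pm : ℕ), (x :: (mid ++ [pm, q])).Perm (s ++ [x]) ∧ pm ≠ q2 ∧
    PVP (s ++ [x]) (x :: (mid ++ [pm, q]))

theorem EP8 : EP 8 := by
  intro s x q q2 hlen hnd hqs
  have hl7 : s.length = 7 := by simp at hlen; omega
  rw [List.nodup_append] at hnd
  have hn7 : s.Nodup := hnd.1
  have hx7 : x ∉ s := by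
    intro hx
    exact hnd.2.2 x hx x (by simp) rfl
  obtain ⟨f, hfinj, hfmap, hfget⟩ := ft_exF s hn7 7 hl7
  have hiq : s.idxOf q < 7 := by
    rw [← hl7]; exact List.idxOf_lt_length_iff.2 hqs
  have hfq : f (s.idxOf q) = q := by
    rw [hfget _ hiq, List.getD_eq_getElem _ _ (by omega)]
    exact List.getElem_idxOf (by omega)
  obtain ⟨p1, hp1, q1, hq1, mid, pm, hcov, hpm⟩ := tab8 (s.idxOf q) (s.idxOf q2) hiq
  have hP1 := idP_ok p1 hp1
  have hPV2 := hok q1 hq1
  have hp1perm : p1.Perm (List.range 7) := by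
    obtain ⟨π, hπ, _, _⟩ := hP1
    exact hπ.perm
  have hq1perm : q1.Perm (List.range 7) := by
    obtain ⟨π, hπ⟩ := hPV2
    exact hπ.perm
  have hA : PVP s (p1.map f) := by
    have := hP1.relabel hfinj
    rwa [hfmap] at this
  have hp1len : p1.length = 7 := by rw [hp1perm.length_eq]; simp
  have hmnd : (p1.map f).Nodup := (hp1perm.nodup_iff.2 List.nodup_range).map hfinj
  obtain ⟨g, hginj, hgmap, hgget⟩ := ft_exF (p1.map f) hmnd 7 (by simp [hp1len])
  have hB : PV (p1.map f) (q1.map g) := by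
    have := hPV2.relabel hginj
    rwa [hgmap] at this
  have hq1g : q1.map g = (mid.map f) ++ [f pm, q] := by
    have h1 : q1.map g = (q1.map (fun i => p1.getD i 0)).map f := by
      rw [List.map_map]
      apply List.map_congr_left
      intro i hi
      have hi7 : i < 7 := by
        have := hq1perm.mem_iff.1 hi
        simpa using this
      rw [hgget i hi7]
      simp only [Function.comp]
      rw [List.getD_eq_getElem _ _ (by simp [hp1len]; omega),
        List.getD_eq_getElem _ _ (by rw [hp1len]; exact hi7), List.getElem_map]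
    rw [h1, hcov]
    simp [hfq]
  rw [hq1g] at hB
  have hM := hA.merge hB hx7 (by omega)
  refine ⟨mid.map f, f pm, ?_, ?_, hM⟩
  · obtain ⟨π, hπ, _, _⟩ := hM
    exact hπ.perm
  · intro h
    have hpm7 : pm < 7 := by
      have h1 : pm ∈ q1.map (fun i => p1.getD i 0) := by rw [hcov]; simp
      rw [List.mem_map] at h1
      obtain ⟨i, hi, h2⟩ := h1
      have hi7 : i < 7 := by
        have := hq1perm.mem_iff.1 hi
        simpa using this
      have h3 : pm ∈ p1 := by
        rw [← h2, List.getD_eq_getElem _ _ (by omega)]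
        exact List.getElem_mem _
      have := hp1perm.mem_iff.1 h3
      simpa using this
    apply hpm
    have h1 : f pm ∈ s := by
      rw [← hfmap]
      exact List.mem_map_of_mem (by simpa using hpm7)
    rw [← h]
    apply hfinj
    rw [hfget (s.idxOf (f pm)) (by rw [← hl7]; exact List.idxOf_lt_length_iff.2 h1),
      List.getD_eq_getElem _ _ (List.idxOf_lt_length_iff.2 h1)]
    exact (List.getElem_idxOf (List.idxOf_lt_length_iff.2 h1)).symm

theorem flexP_of_EP {n : ℕ} (hn : 8 ≤ n) (h : EP n) : ∀ (s' : List ℕ) (p x q : ℕ) (e' : List ℕ),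
    (s' ++ [p, x]).length = n + 1 → (s' ++ [p, x]).Nodup → (x :: q :: e').Perm (s' ++ [p, x]) →
    q ≠ p → PVP (s' ++ [p, x]) (x :: q :: e') := by
  intro s' p x q e' hlen hnd hperm hqp
  have hsplit : s' ++ [p, x] = (s' ++ [p]) ++ [x] := by simp
  have hs'len : s'.length + 1 = n := by
    simp at hlen; omega
  rw [hsplit] at hnd hperm ⊢
  rw [List.nodup_append] at hnd
  have hn7 : (s' ++ [p]).Nodup := hnd.1
  have hx7 : x ∉ s' ++ [p] := by
    intro hx
    exact hnd.2.2 x hx x (by simp) rfl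
  have hp7 : (q :: e').Perm (s' ++ [p]) := by
    have h1 : (x :: q :: e').Perm (x :: (s' ++ [p])) :=
      hperm.trans (List.perm_append_comm (l₁ := s' ++ [p]) (l₂ := [x]))
    exact (List.perm_cons x).1 h1
  have hqmem : q ∈ s' := by
    have : q ∈ s' ++ [p] := hp7.mem_iff.1 (by simp)
    rcases List.mem_append.1 this with h | h
    · exact h
    · simp at h; exact absurd h hqp
  have he'len : e'.length + 1 = n := by
    have := hp7.length_eq
    simp at this
    omega
  obtain ⟨q2, e'', rfl⟩ : ∃ q2 e'', e' = q2 :: e'' := by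
    cases e' with
    | nil => simp at he'len; omega
    | cons a l => exact ⟨a, l, rfl⟩
  obtain ⟨mid, pm, hmp, hpm, hA⟩ := h s' p q q2 (by simp; omega) hn7 hqmem
  have hB : PV (p :: (mid ++ [pm, q])) (q :: q2 :: e'') := by
    have hrew : p :: (mid ++ [pm, q]) = (p :: mid) ++ [pm, q] := by simp
    rw [hrew] at hmp ⊢
    refine flex n hn (p :: mid) pm q q2 e'' ?_ ?_ ?_ (Ne.symm hpm)
    · rw [hmp.length_eq]; simp; omega
    · exact hmp.nodup_iff.2 hn7
    · exact hp7.trans hmp.symm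
  exact hA.merge hB hx7 (by simp; omega)

theorem EP_of_flexP {n : ℕ} (hn : 8 ≤ n) (h : ∀ (s' : List ℕ) (p x q : ℕ) (e' : List ℕ),
    (s' ++ [p, x]).length = n → (s' ++ [p, x]).Nodup → (x :: q :: e').Perm (s' ++ [p, x]) →
    q ≠ p → PVP (s' ++ [p, x]) (x :: q :: e')) : EP n := by
  intro S x q q2 hlen hnd hqmem
  have hSlen : S.length + 1 = n := by simp at hlen; omega
  have hnS : S.Nodup := (List.nodup_append.1 hnd).1
  obtain ⟨s'', p', hS⟩ : ∃ s'' p', S = s'' ++ [p'] := by
    rcases List.eq_nil_or_concat S with h | ⟨l, a, h⟩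
    · rw [h] at hSlen; simp at hSlen; omega
    · exact ⟨l, a, by simpa using h⟩
  have hnd1 : (S.erase q).Nodup := hnS.erase q
  have hlen1 : (S.erase q).length + 1 = S.length := by
    rw [List.length_erase_of_mem hqmem]
    have : 0 < S.length := List.length_pos_of_mem hqmem
    omega
  obtain ⟨m2, hm2, hm2p⟩ := ft_exne (S.erase q) hnd1 (by omega) p'
  have hnd2 : ((S.erase q).erase m2).Nodup := hnd1.erase m2
  have hlen2 : ((S.erase q).erase m2).length + 1 = (S.erase q).length := by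
    rw [List.length_erase_of_mem hm2]
    have : 0 < (S.erase q).length := List.length_pos_of_mem hm2
    omega
  obtain ⟨pm, hpm, hpmq⟩ := ft_exne ((S.erase q).erase m2) hnd2 (by omega) q2
  obtain ⟨mid, hmid⟩ : ∃ mid, mid = ((S.erase q).erase m2).erase pm := ⟨_, rfl⟩
  have hpermS : (m2 :: (mid ++ [pm, q])).Perm S := by
    have h1 : S.Perm (q :: S.erase q) := List.perm_cons_erase hqmem
    have h2 : (S.erase q).Perm (m2 :: (S.erase q).erase m2) := List.perm_cons_erase hm2
    have h3 : ((S.erase q).erase m2).Perm (pm :: mid) := by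
      rw [hmid]; exact List.perm_cons_erase hpm
    have h4 : S.Perm (q :: m2 :: pm :: mid) :=
      h1.trans (List.Perm.cons q (h2.trans (List.Perm.cons m2 h3)))
    refine List.Perm.trans ?_ h4.symm
    have h5 : (mid ++ [pm, q]).Perm ([pm, q] ++ mid) := List.perm_append_comm
    have h6 : (m2 :: (mid ++ [pm, q])).Perm (m2 :: pm :: q :: mid) := List.Perm.cons m2 h5
    refine h6.trans ?_
    have h7 : (m2 :: pm :: q :: mid).Perm (m2 :: q :: pm :: mid) :=
      List.Perm.cons m2 (List.Perm.swap q pm mid)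
    exact h7.trans (List.Perm.swap q m2 (pm :: mid))
  have hpermm : (x :: m2 :: (mid ++ [pm, q])).Perm (S ++ [x]) := by
    have h1 : (x :: m2 :: (mid ++ [pm, q])).Perm (x :: S) := List.Perm.cons x hpermS
    exact h1.trans (List.perm_append_comm (l₁ := [x]) (l₂ := S))
  have hSx : S ++ [x] = s'' ++ [p', x] := by rw [hS]; simp
  refine ⟨m2 :: mid, pm, by simpa using hpermm, hpmq, ?_⟩
  have := h s'' p' x m2 (mid ++ [pm, q]) (by rw [← hSx]; exact hlen) (by rw [← hSx]; exact hnd)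
    (by rw [← hSx]; exact hpermm) hm2p
  rw [← hSx] at this
  simpa using this

theorem flexP3 (n : ℕ) (hn : 9 ≤ n) (s' : List ℕ) (p x q : ℕ) (e' : List ℕ)
    (hlen : (s' ++ [p, x]).length = n) (hnd : (s' ++ [p, x]).Nodup)
    (hperm : (x :: q :: e').Perm (s' ++ [p, x])) (hqp : q ≠ p) :
    ∃ π, PVf (s' ++ [p, x]) (x :: q :: e') π ∧ π 1 = walk (s' ++ [p, x]) ∧
      St (s' ++ [p, x]) (π 2) := by
  have key : ∀ n, 8 ≤ n → EP n := by
    intro n hn
    induction n, hn using Nat.le_induction with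
    | base => exact EP8
    | succ n hn ih => exact EP_of_flexP (by omega) (flexP_of_EP hn ih)
  obtain ⟨n, rfl⟩ : ∃ k, n = k + 1 := ⟨n - 1, by omega⟩
  exact flexP_of_EP (by omega) (key n (by omega)) s' p x q e' hlen hnd hperm hqp

theorem flexP : FlexP := by
  intro n hn s' p x q e' hlen hnd hperm hqp
  obtain ⟨π, h1, h2, _⟩ := flexP3 n hn s' p x q e' hlen hnd hperm hqp
  exact ⟨π, h1, h2⟩

end Pool.Agent.Helper621.FT
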