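import Pool.Agent.Helper621.FT.BF12
import Pool.Agent.Helper722.FX.CS

/-!
# The C side of the exact Felsner-Trotter order, without hypotheses
-/

set_option autoImplicit false

namespace Pool.Agent.Helper621.FT

open Pool.Agent.Helper605.FT Pool.Agent.Helper722.FX

theorem c_side_all (n : ℕ) (hn : 13 ≤ n) (σ : List ℕ)
    (hσ : (σ ++ [2, 3, n - 3]).Perm (sX (n - 1))) (hσ0 : σ ≠ []) (h1 : σ.getLast? ≠ some 1) :
    ∃ c, CSide n (σ ++ [2, 3, n - 3, n - 2, n]) c :=
  c_side_final hbase n hn σ hσ hσ0 h1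

end Pool.Agent.Helper621.FT
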